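import Pool.Agent.LibTwistedSum.Main

set_option autoImplicit false

namespace Pool.Agent.Results.MP_25e654_an.NotBanach

/-- There are separable Banach spaces `X`, `Y`, a separable Banach space `Z` with a linear
injection `ι : Z → Y` of norm at most one (so `M = ι Z` is a linear subspace of `Y` carrying a
complete norm dominating the norm of `Y`), and a Borel map `φ : X → Y` that is linear modulo
`M`, such that `V = φ(X) + M` is not the image of any Banach space under an injective continuous
linear map to `Y`. -/
theorem result :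
    ∃ (X Y Z : Type)
      (_ : NormedAddCommGroup X) (_ : NormedSpace ℝ X) (_ : CompleteSpace X)
      (_ : TopologicalSpace.SeparableSpace X)
      (_ : NormedAddCommGroup Y) (_ : NormedSpace ℝ Y) (_ : CompleteSpace Y)
      (_ : TopologicalSpace.SeparableSpace Y)
      (_ : NormedAddCommGroup Z) (_ : NormedSpace ℝ Z) (_ : CompleteSpace Z)
      (_ : TopologicalSpace.SeparableSpace Z)
      (ι : Z →ₗ[ℝ] Y) (φ : X → Y),
      Function.Injective ι ∧ (∀ z, ‖ι z‖ ≤ ‖z‖) ∧
      @Measurable X Y (borel X) (borel Y) φ ∧
      (∀ (a b : ℝ) (x y : X), φ (a • x + b • y) - (a • φ x + b • φ y) ∈ Set.range ι) ∧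
      ¬ ∃ (W : Type) (_ : NormedAddCommGroup W) (_ : NormedSpace ℝ W) (_ : CompleteSpace W)
        (J : W →L[ℝ] Y), Function.Injective J ∧
          Set.range J = {v | ∃ (x : X) (z : Z), v = φ x + ι z} :=
  Pool.Agent.LibTwistedSum.main

end Pool.Agent.Results.MP_25e654_an.NotBanach
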